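import Pool.Agent.Lib.MP_f0c157_lc.GEN.Asm
import Pool.Agent.Lib.MP_f0c157_lc.GEN.Cmp

set_option autoImplicit false

namespace Pool.Agent.Results.MP_f0c157_lc.GenericOracles

open N68a2faeb N793a5b8e Pool.Agent.Lib.RO Pool.Agent.Lib.MP_f0c157_lc.GEN

/-- Let `T` be complete for `coNP`. For all oracles `G` from a comeager set: `T` has a p-optimal
proof system if and only if every nonempty language in `coNP` relative to `G` has one relative to
`G`, and if and only if some language that is hard for `coNP` relative to `G` has one relative to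
`G`. -/
theorem result : ∀ T : DecisionProblem, IsCompleteFor coNP T →
    ∀ᶠ G in residual (List Bool → Bool),
      ((∃ P, IsPOptimalProofSystem T P) ↔ ∀ L ∈ coNPRel G, (∃ x, L x = true) →
        ∃ P, IsPOptimalProofSystemRel G L P) ∧
      ((∃ P, IsPOptimalProofSystem T P) ↔ ∃ U : DecisionProblem,
        (∀ A ∈ coNPRel G, ManyOneReducibleRel G A U) ∧
          ∃ P, IsPOptimalProofSystemRel G U P) :=
  main_iff cmp

end Pool.Agent.Results.MP_f0c157_lc.GenericOracles
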