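import Pool.Agent.Lib.MP_f0c157_lc.ZeroOne

set_option autoImplicit false

namespace Pool.Agent.Results.MP_f0c157_lc.RandomAdvice

open N68a2faeb N793a5b8e Pool.Agent.Lib.MP_f0c157_lc

/-- A p-optimal proof system for `L` exists if and only if logarithmically many bits of a random
infinite sequence are, with positive probability, useful as advice for a p-optimal proof system. -/
theorem result (L : DecisionProblem) (hL : ∃ P, IsProofSystem L P) (s : ℕ → ℕ)
    (hs : IsPolyTime fun w : List Bool => List.replicate (s w.length) true)
    (hlog : ∃ c, ∀ n, 2 ^ s n ≤ (n + 2) ^ c) :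
    (∃ P, IsPOptimalProofSystem L P) ↔ coin (HelpfulAdvice L s) ≠ 0 := by
  have h := main_zeroOne L hL s hs hlog
  constructor
  · intro h1
    rw [h.1 h1]
    simp
  · intro h1
    by_contra h2
    exact h1 (h.2 h2).1

end Pool.Agent.Results.MP_f0c157_lc.RandomAdvice
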