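import Pool.Agent.Lib.RO.Final

set_option autoImplicit false

namespace Pool.Agent.Results.MP_f0c157_lc.RandomOracle

open N68a2faeb N793a5b8e Pool.Agent.Lib.RO MeasureTheory

/-- For almost every oracle `R` the following holds for every language `L` that is hard for `coNP`
relative to `R`: for every proof system `P` for `L` relative to `R` there is a proof system `Q` for
`L` relative to `R` which `P` does not simulate, not even with proofs longer by the subexponential
factor `2 ^ (n ^ (1 / 4))`. -/
theorem result : ∀ᵐ R ∂randomOracle, ∀ L : DecisionProblem,
    (∀ A ∈ coNPRel R, ManyOneReducibleRel R A L) →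
      ∀ P : List Bool → List Bool, IsProofSystemRel R L P →
        ∃ Q, IsProofSystemRel R L Q ∧
          ∀ C : ℕ, ¬ SimulatesWithin (fun n => C * 2 ^ Nat.sqrt (Nat.sqrt n) + C) P Q :=
  mainB

end Pool.Agent.Results.MP_f0c157_lc.RandomOracle
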