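import Pool.Agent.Lib.MP_f0c157_lc.Slow

set_option autoImplicit false

namespace Pool.Agent.Results.MP_f0c157_lc.SlowAdvice

open N68a2faeb N793a5b8e Pool.Agent.Lib.MP_f0c157_lc Filter

/-- There are a polynomial-time verifier `f` and one infinite bit sequence `α` such that, for every
`s` which tends to infinity (however slowly), `f` with the first `s n` bits of `α` as advice is a
proof system for `L` which p-simulates every advice-free proof system for `L`. -/
theorem result (L : DecisionProblem) (hL : ∃ P, IsProofSystem L P) :
    ∃ (f : List Bool × List Bool → List Bool) (α : ℕ → Bool), IsPolyTime f ∧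
      ∀ s : ℕ → ℕ, Tendsto s atTop atTop →
        (∀ y, L y ↔ ∃ w, withAdvice f α s w = y) ∧
        ∀ Q, IsProofSystem L Q → PSimulates (withAdvice f α s) Q :=
  main_slow L hL

end Pool.Agent.Results.MP_f0c157_lc.SlowAdvice
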